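import Pool.Agent.V5helper76.AQ.Surf

/-!
# A non-amenable subgroup of `Map(ℝ² ∖ C)` without nontrivial quasimorphisms

`Surf K` is the plane (the complex line) minus a Cantor set `K` which lies in the real line, with the
orientation of the plane, and `Map (Surf K)` is its mapping class group: orientation-preserving
homeomorphisms modulo isotopy (`Pool.Agent.H659R3.BigMCG.Defs`).  All Cantor sets in the plane are
ambiently homeomorphic, so up to isomorphism this is the group of the problem for every Cantor
set.

The automorphism group of the ordered set `ℚ` acts on the (countable, densely ordered) set of gaps of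
`K`, hence on the line and on the plane, and embeds into `Map (Surf K)`: an isotopically trivial
homeomorphism fixes all the ends.  The subgroup `H` is the image of the group generated by two
piecewise linear maps `a`, `b` of the ping-pong type, compressed to an interval of length `2`, and
the translation by `1`.  It is not amenable since its subgroup of the elements supported in this
interval has no invariant mean on the interval.  The conjugates of an element of bounded support by
the large powers of the translation commute with it, therefore all homogeneous quasimorphisms are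
additive on the elements of bounded support, and then on `H`.
-/

set_option autoImplicit false

open Set Topology Filter

namespace Pool.Agent.Results.MP_ac6992_gt.NonamenableTrivialQ

open Pool.Agent.H659R3.BigMCG Pool.Agent.V5helper76.AQ

/-- `Q(G)`: the real vector space of the homogeneous quasimorphisms on `G`. -/
def Q (G : Type) [Group G] : Submodule ℝ (G → ℝ) where
  carrier := {φ | IsHQ φ}
  add_mem' := by
    rintro φ ψ ⟨⟨D, hD⟩, hφ⟩ ⟨⟨E, hE⟩, hψ⟩
    refine ⟨⟨D + E, fun g h => ?_⟩, fun g n => ?_⟩
    · have h1 := hD g h
      have h2 := hE g h
      rw [abs_le] at h1 h2 ⊢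
      simp only [Pi.add_apply]
      constructor <;> linarith [h1.1, h1.2, h2.1, h2.2]
    · simp only [Pi.add_apply]
      rw [hφ, hψ]; ring
  zero_mem' := ⟨⟨0, fun g h => by simp⟩, fun g n => by simp⟩
  smul_mem' := by
    rintro c φ ⟨⟨D, hD⟩, hφ⟩
    refine ⟨⟨|c| * D, fun g h => ?_⟩, fun g n => ?_⟩
    · simp only [Pi.smul_apply, smul_eq_mul]
      rw [← mul_sub, ← mul_sub, abs_mul]
      exact mul_le_mul_of_nonneg_left (hD g h) (abs_nonneg c)
    · simp only [Pi.smul_apply, smul_eq_mul]
      rw [hφ]; ring

/-- `Hom(G, ℝ)`: the real vector space of the homomorphisms `G → ℝ`. -/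
def HomR (G : Type) [Group G] : Submodule ℝ (G → ℝ) where
  carrier := {φ | ∀ g h, φ (g * h) = φ g + φ h}
  add_mem' := by
    intro φ ψ hφ hψ g h
    have h1 := hφ g h
    have h2 := hψ g h
    show φ (g * h) + ψ (g * h) = (φ g + ψ g) + (φ h + ψ h)
    rw [h1, h2]; ring
  zero_mem' := by
    intro g h
    show (0 : ℝ) = 0 + 0
    ring
  smul_mem' := by
    intro c φ hφ g h
    have h1 := hφ g h
    show c * φ (g * h) = c * φ g + c * φ h
    rw [h1]; ring

/-- The dimension of the real vector space `Q(G) / Hom(G, ℝ)` (as a cardinal). -/
noncomputable def dimQ (G : Type) [Group G] : Cardinal :=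
  Module.rank ℝ (Q G ⧸ (HomR G).submoduleOf (Q G))

/-- The mapping class group of the plane minus the Cantor set `K`. -/
abbrev MCG (K : LinCantor) : Type := Map K.Surf

/-- The ternary Cantor set is an example of the sets considered. -/
noncomputable def ternary : LinCantor where
  carrier := cantorSet
  nonempty := ⟨0, zero_mem_cantorSet⟩
  compact := isCompact_cantorSet
  perfect := by
    intro x hx
    let e := cantorSetHomeomorphNatToBool
    let a : ℕ → Bool := e ⟨x, hx⟩
    let b : ℕ → (ℕ → Bool) := fun n => Function.update a n (!a n)
    have hb : Tendsto b atTop (𝓝 a) := by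
      rw [tendsto_pi_nhds]
      intro k
      refine tendsto_const_nhds.congr' ?_
      filter_upwards [eventually_gt_atTop k] with n hn
      simp [b, Function.update_of_ne hn.ne]
    have hb2 : ∀ n, b n ≠ a := by
      intro n h
      have := congrFun h n
      simp [b] at this
    have h1 : Tendsto (fun n => ((e.symm (b n) : cantorSet) : ℝ)) atTop (𝓝 x) := by
      have h2 : Tendsto (fun n => e.symm (b n)) atTop (𝓝 (e.symm a)) :=
        (e.symm.continuous.tendsto a).comp hb
      have h3 : e.symm a = ⟨x, hx⟩ := e.symm_apply_apply _
      rw [h3] at h2
      exact (continuous_subtype_val.tendsto _).comp h2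
    rw [accPt_iff_nhds]
    intro U hU
    obtain ⟨n, hn⟩ := (h1.eventually hU).exists
    refine ⟨_, ⟨hn, (e.symm (b n)).2⟩, fun h => ?_⟩
    apply hb2 n
    have h4 : e.symm (b n) = ⟨x, hx⟩ := Subtype.ext h
    rw [← e.apply_symm_apply (b n), h4]
  totallyDisconnected := by
    rw [← totallyDisconnectedSpace_subtype_iff]
    exact cantorSetHomeomorphNatToBool.symm.totallyDisconnectedSpace

/-- For every Cantor set `K` in the real line, the mapping class group of the plane minus `K` has a
finitely generated subgroup `H` which is not amenable and such that `Q(H) / Hom(H, ℝ)` has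
dimension zero. -/
theorem result : ∀ K : LinCantor, ∃ H : Subgroup (MCG K),
    H.FG ∧ ¬ Amenable H ∧ dimQ H = 0 := by
  intro K
  let p : AutQ →* Map K.Surf := LinCantor.toMCG
  have hp : Function.Injective p := LinCantor.toMCG_injective
  let e : LL →* LL.map p := p.subgroupMap LL
  have he : Function.Injective e := by
    intro x y hxy
    apply Subtype.ext
    apply hp
    exact congrArg Subtype.val hxy
  have hs : Function.Surjective e := p.subgroupMap_surjective LL
  refine ⟨LL.map p, ?_, LL_not_amenable e he, ?_⟩
  · rw [Subgroup.fg_iff]
    exact ⟨p '' {gA, gB, gT}, by rw [LL, MonoidHom.map_closure], toFinite _⟩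
  · have hsub : Subsingleton (Q (LL.map p) ⧸ (HomR (LL.map p)).submoduleOf (Q (LL.map p))) := by
      rw [Submodule.Quotient.subsingleton_iff, eq_top_iff]
      rintro φ - g h
      obtain ⟨x, rfl⟩ := hs g
      obtain ⟨y, rfl⟩ := hs h
      have hφ : IsHQ (fun x => φ.1 (e x)) := by
        obtain ⟨⟨D, hD⟩, hn⟩ := φ.2
        refine ⟨⟨D, fun g h => ?_⟩, fun g n => ?_⟩
        · simp only [map_mul]
          exact hD _ _
        · simp only [map_zpow]
          exact hn _ _
      have := LL_additive hφ x y
      simp only [map_mul] at this
      exact this
    exact rank_subsingleton' _ _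

end Pool.Agent.Results.MP_ac6992_gt.NonamenableTrivialQ
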